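import Mathlib

/-! Completion of a ring at a principal ideal. -/

set_option autoImplicit false

namespace Pool.Agent.H.MP_9e990c_al.Gen

open AdicCompletion

variable {R : Type*} [CommRing R] (p : R)

theorem fg : (Ideal.span {p} : Ideal R).FG := ⟨{p}, by simp⟩

theorem complete : IsAdicComplete
    (Ideal.span {algebraMap R (AdicCompletion (Ideal.span {p}) R) p})
    (AdicCompletion (Ideal.span {p}) R) := by
  have h := AdicCompletion.isAdicComplete_self (Ideal.span {p}) (fg p)
  rwa [Ideal.map_span, Set.image_singleton] at h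

theorem eval_eq_zero {a : AdicCompletion (Ideal.span {p}) R} (h : evalOneₐ (Ideal.span {p}) a = 0) :
    ∃ b, a = algebraMap R (AdicCompletion (Ideal.span {p}) R) p * b := by
  have h1 : a ∈ RingHom.ker (evalOneₐ (Ideal.span {p})).toRingHom := h
  rw [ker_evalOneₐ_eq_map _ (fg p), Ideal.map_span, Set.image_singleton] at h1
  exact Ideal.mem_span_singleton.1 h1

theorem eval_p : evalOneₐ (Ideal.span {p}) (algebraMap R (AdicCompletion (Ideal.span {p}) R) p) = 0 := by
  rw [AlgHom.commutes]
  exact Ideal.Quotient.eq_zero_iff_mem.2 (Ideal.mem_span_singleton_self p)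

theorem eval_low (I : Ideal R) (a : AdicCompletion I R) (n : ℕ) (r : R)
    (h : evalₐ I (n + 1) a = Ideal.Quotient.mk _ r) : evalₐ I n a = Ideal.Quotient.mk _ r := by
  induction a using AdicCompletion.induction_on with
  | _ f =>
    rw [evalₐ_mk] at h ⊢
    have h1 := AdicCompletion.Ideal.mk_eq_mk (I := I) (Nat.le_succ n) f
    rw [← h1]
    rw [Ideal.Quotient.eq] at h ⊢
    exact Ideal.pow_le_pow_right (Nat.le_succ n) h

theorem nzd (hp : ∀ r : R, p * r = 0 → r = 0) (a : AdicCompletion (Ideal.span {p}) R)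
    (ha : algebraMap R (AdicCompletion (Ideal.span {p}) R) p * a = 0) : a = 0 := by
  refine AdicCompletion.ext_evalₐ (I := Ideal.span {p}) fun n => ?_
  obtain ⟨r, hr⟩ := Ideal.Quotient.mk_surjective (evalₐ (Ideal.span {p}) (n + 1) a)
  have h1 : evalₐ (Ideal.span {p}) (n + 1) (algebraMap R (AdicCompletion (Ideal.span {p}) R) p * a)
      = 0 := by rw [ha, _root_.map_zero]
  rw [map_mul, AlgHom.commutes, ← hr] at h1
  have h2 : p * r ∈ (Ideal.span {p} : Ideal R) ^ (n + 1) := by
    rw [← Ideal.Quotient.eq_zero_iff_mem, map_mul]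
    exact h1
  rw [Ideal.span_singleton_pow, Ideal.mem_span_singleton] at h2
  obtain ⟨c, hc⟩ := h2
  have h3 : r = p ^ n * c := by
    have : p * (r - p ^ n * c) = 0 := by rw [mul_sub, hc]; ring
    exact sub_eq_zero.1 (hp _ this)
  rw [eval_low _ a n r hr.symm, _root_.map_zero, Ideal.Quotient.eq_zero_iff_mem, Ideal.span_singleton_pow,
    h3]
  exact Ideal.mul_mem_right _ _ (Ideal.mem_span_singleton_self _)

theorem sep (a : AdicCompletion (Ideal.span {p}) R)
    (h : ∀ n : ℕ, ∃ b, a = algebraMap R (AdicCompletion (Ideal.span {p}) R) p ^ n * b) : a = 0 := by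
  have := complete p
  refine IsHausdorff.haus (I := Ideal.span {algebraMap R (AdicCompletion (Ideal.span {p}) R) p})
    inferInstance a fun n => ?_
  obtain ⟨b, hb⟩ := h n
  rw [SModEq.zero, smul_eq_mul, Ideal.mul_top, Ideal.span_singleton_pow, hb]
  exact Ideal.mul_mem_right _ _ (Ideal.mem_span_singleton_self _)

end Pool.Agent.H.MP_9e990c_al.Gen
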