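import Pool.Agent.H.MP_9e990c_al.h20.RingO

/-! Lifts of residues to `O` which are fixed by all the endomorphisms that fix given elements. -/

set_option autoImplicit false

namespace Pool.Agent.H.MP_9e990c_al.Base

open N9e

theorem exists_lift_poly (v : Fin 7 → O) (P : PA) :
    ∃ c : O, redO c = MvPolynomial.aeval (fun i => redO (v i)) P ∧
      ∀ f : O →+* O, (∀ i, f (v i) = v i) → f c = c := by
  induction P using MvPolynomial.induction_on with
  | C a =>
    refine ⟨(a.val : O), ?_, fun f _ => map_natCast f _⟩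
    rw [map_natCast, MvPolynomial.algHom_C]
    conv_rhs => rw [← ZMod.natCast_zmod_val a]
    rw [map_natCast]
  | add p q hp hq =>
    obtain ⟨c, hc, hc'⟩ := hp
    obtain ⟨d, hd, hd'⟩ := hq
    exact ⟨c + d, by rw [map_add, map_add, hc, hd],
      fun f hf => by rw [map_add, hc' f hf, hd' f hf]⟩
  | mul_X p i hp =>
    obtain ⟨c, hc, hc'⟩ := hp
    exact ⟨c * v i, by rw [map_mul, map_mul, hc, MvPolynomial.aeval_X],
      fun f hf => by rw [map_mul, hc' f hf, hf i]⟩

/-- For elements `v i` of `O`, every quotient of polynomials in the residues of the `v i` lifts to an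
element of `O` which is fixed by all the endomorphisms which fix the `v i`. -/
theorem exists_lift (v : Fin 7 → O) (P Q : PA)
    (hQ : MvPolynomial.aeval (fun i => redO (v i)) Q ≠ 0) :
    ∃ c : O, redO c = MvPolynomial.aeval (fun i => redO (v i)) P /
      MvPolynomial.aeval (fun i => redO (v i)) Q ∧
      ∀ f : O →+* O, (∀ i, f (v i) = v i) → f c = c := by
  obtain ⟨c, hc, hc'⟩ := exists_lift_poly v P
  obtain ⟨d, hd, hd'⟩ := exists_lift_poly v Q
  obtain ⟨u, hu⟩ := unitO d (by rw [hd]; exact hQ)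
  have hu1 : d * (↑u⁻¹ : O) = 1 := by rw [← hu, Units.mul_inv]
  refine ⟨c * (↑u⁻¹ : O), ?_, fun f hf => ?_⟩
  · rw [map_mul, hc, div_eq_mul_inv]
    congr 1
    have h1 := congrArg redO hu1
    rw [map_mul, map_one, hd] at h1
    exact eq_inv_of_mul_eq_one_right h1
  · have h1 := congrArg f hu1
    rw [map_mul, map_one, hd' f hf] at h1
    have h2 : f (↑u⁻¹ : O) = ↑u⁻¹ := by
      calc f (↑u⁻¹ : O) = (d * ↑u⁻¹) * f (↑u⁻¹ : O) := by rw [hu1, one_mul]
        _ = (d * f (↑u⁻¹ : O)) * ↑u⁻¹ := by ring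
        _ = ↑u⁻¹ := by rw [h1, one_mul]
    rw [map_mul, hc' f hf, h2]

theorem aeval_var (P : PA) : MvPolynomial.aeval (fun i => redO (varO i)) P =
    algebraMap PA MM (cub P) := by
  have h : (MvPolynomial.aeval (fun i => redO (varO i)) : PA →ₐ[ZMod 3] MM) =
      (IsScalarTower.toAlgHom (ZMod 3) PA MM).comp cub := by
    refine MvPolynomial.algHom_ext fun i => ?_
    rw [MvPolynomial.aeval_X, AlgHom.comp_apply, cub_X, redO_var]
    split_ifs
    · rfl
    · rw [map_pow]; rfl
  rw [h]
  rfl

/-- The residues of the elements of `O`: the quotients of polynomials in `t, x_j, y_j ^ 3`. -/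
theorem redO_surj (P Q : PA) (hQ : Q ≠ 0) :
    ∃ c : O, redO c = algebraMap PA MM (cub P) / algebraMap PA MM (cub Q) := by
  obtain ⟨c, hc, -⟩ := exists_lift varO P Q (by
    rw [aeval_var]
    intro h
    rw [← map_zero (algebraMap PA MM)] at h
    have h1 := IsFractionRing.injective PA MM h
    rw [← map_zero cub] at h1
    exact hQ (cub_injective h1))
  exact ⟨c, by rw [hc, aeval_var, aeval_var]⟩

theorem redO_range (a : O) : ∃ P Q : PA, Q ≠ 0 ∧
    redO a = algebraMap PA MM (cub P) / algebraMap PA MM (cub Q) := by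
  obtain ⟨r, b, hr⟩ := exists_R a
  have h1 : redO a = redR r := by
    rw [hr, map_add, map_mul, redO_pi, zero_mul, add_zero, redO_algebraMap]
  obtain ⟨x, s, rfl⟩ := IsLocalization.exists_mk'_eq P0.primeCompl r
  refine ⟨redA x, redA s, fun h => s.2 h, ?_⟩
  rw [h1]
  have h2 : redA' s ≠ 0 := (redA'_unit s).ne_zero
  have h3 : redR (IsLocalization.mk' R x s) * redA' s = redA' x := by
    rw [← redR_algebraMap, ← redR_algebraMap, ← map_mul, IsLocalization.mk'_spec]
  exact eq_div_of_mul_eq h2 h3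

end Pool.Agent.H.MP_9e990c_al.Base
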