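import Pool.Agent.H.MP_9e990c_al.h20.Lift
import Pool.Agent.H.MP_9e990c_al.h30.Kernel

/-! The range of the residue map of `O`; small facts about units of `O`. -/

set_option autoImplicit false

namespace Pool.Agent.H.MP_9e990c_al.Base

open N9e

theorem phi_eq_cub : phi {4, 5, 6} = cub := by
  refine MvPolynomial.algHom_ext fun i => ?_
  rw [phi_X, cub_X]
  fin_cases i <;> simp

theorem pderiv_cub (j : Fin 7) (hj : 4 ≤ j) (P : PA) : MvPolynomial.pderiv j (cub P) = 0 := by
  induction P using MvPolynomial.induction_on with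
  | C a => rw [MvPolynomial.algHom_C]; simp
  | add p q hp hq => rw [map_add, map_add, hp, hq, add_zero]
  | mul_X p i hp =>
    rw [map_mul, Derivation.leibniz, hp, smul_zero, add_zero, cub_X]
    split_ifs with h
    · have : i ≠ j := by
        rintro rfl
        exact absurd h (not_lt.2 hj)
      rw [MvPolynomial.pderiv_X_of_ne this, smul_zero]
    · have h3 : ∀ x : PA, (3 : ℕ) • x = 0 := fun x => by
        rw [← Nat.cast_smul_eq_nsmul (ZMod 3)]
        have : ((3 : ℕ) : ZMod 3) = 0 := by decide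
        rw [this, zero_smul]
      rw [Derivation.leibniz_pow, h3, smul_zero]

/-- The residues of `O` are killed by the derivatives with respect to the `y_j`. -/
theorem pd_redO (a : O) (j : Fin 7) (hj : 4 ≤ j) : pd j (redO a) = 0 := by
  obtain ⟨P, Q, hQ, h⟩ := redO_range a
  have hQ' : algebraMap PA MM (cub Q) ≠ 0 := by
    intro h0
    rw [← map_zero (algebraMap PA MM)] at h0
    have h1 := IsFractionRing.injective PA MM h0
    rw [← map_zero cub] at h1
    exact hQ (cub_injective h1)
  have h1 : redO a * algebraMap PA MM (cub Q) = algebraMap PA MM (cub P) := by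
    rw [h, div_mul_cancel₀ _ hQ']
  have h2 := congrArg (pd j) h1
  rw [Derivation.leibniz, pd_algebraMap, pd_algebraMap, pderiv_cub j hj, pderiv_cub j hj, map_zero,
    smul_zero, zero_add, smul_eq_mul] at h2
  exact (mul_eq_zero.1 h2).resolve_left hQ'

/-- Every element killed by the derivatives with respect to the `y_j` is a residue of `O`. -/
theorem mem_range_redO (F : MM) (h : ∀ j : Fin 7, 4 ≤ j → pd j F = 0) : ∃ c : O, redO c = F := by
  obtain ⟨P, Q, hQ, hF⟩ := kernel_pd {4, 5, 6} F (fun i hi => h i (by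
    revert hi; revert i; decide))
  rw [phi_eq_cub] at hF
  obtain ⟨c, hc⟩ := redO_surj P Q hQ
  exact ⟨c, by rw [hc, hF]⟩

theorem mem_range_redO' (F : MM) (h4 : pd 4 F = 0) (h5 : pd 5 F = 0) (h6 : pd 6 F = 0) :
    ∃ c : O, redO c = F :=
  mem_range_redO F (fun j hj => by
    have h : ∀ j : Fin 7, 4 ≤ j → j = 4 ∨ j = 5 ∨ j = 6 := by decide
    rcases h j hj with rfl | rfl | rfl
    exacts [h4, h5, h6])

/-! ### Units and the cubic, in the form used in section 1 -/

theorem unit_one_add_pi (a : O) : IsUnit (1 + piO * a) :=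
  unit_one_add _ (by rw [map_add, map_one, map_mul, redO_pi, zero_mul, add_zero])

theorem unit_two : IsUnit (2 : O) := by
  apply unitO
  rw [map_ofNat]
  have h : (3 : MM) = 0 := three_MM
  intro h2
  have : (1 : MM) = 3 - 2 := by norm_num
  rw [h, h2, sub_zero] at this
  exact one_ne_zero this

theorem root_cubic (A B : O) : ∃ z c : O, z = 1 + piO * c ∧
    z ^ 3 - z ^ 2 + (piO * A) * z + piO * B = 0 := by
  obtain ⟨y, hy, hy1⟩ := root (piO * A) (piO * B) ⟨A, rfl⟩ ⟨B, rfl⟩
  obtain ⟨u, hu⟩ := unit_one_add y hy1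
  have huz : y * (↑u⁻¹ : O) = 1 := by rw [← hu, Units.mul_inv]
  have hz1 : redO (↑u⁻¹ : O) = 1 := by
    have h7 := congrArg redO huz
    rwa [map_mul, hy1, one_mul, map_one] at h7
  obtain ⟨c, hc⟩ := redO_ker ((↑u⁻¹ : O) - 1) (by rw [map_sub, hz1, map_one, sub_self])
  refine ⟨↑u⁻¹, c, by rw [← hc]; ring, ?_⟩
  generalize (↑u⁻¹ : O) = z at huz
  have h4 : z ^ 2 = z ^ 3 * y := by
    calc z ^ 2 = z ^ 2 * (y * z) := by rw [huz, mul_one]
      _ = z ^ 3 * y := by ring
  have h5 : z = z ^ 3 * y ^ 2 := by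
    calc z = z * (y * z) ^ 2 := by rw [huz]; ring
      _ = z ^ 3 * y ^ 2 := by ring
  have h6 : (1 : O) = z ^ 3 * y ^ 3 := by
    calc (1 : O) = (y * z) ^ 3 := by rw [huz]; ring
      _ = z ^ 3 * y ^ 3 := by ring
  linear_combination -h4 + (piO * A) * h5 + (piO * B) * h6 - z ^ 3 * hy

end Pool.Agent.H.MP_9e990c_al.Base
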