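import Pool.Agent.H.MP_9e990c_al.h89.Defs
import Pool.Agent.H.MP_9e990c_al.h30.Der

/-! The ring `R`: kernel of the residue map, units, non-zero-divisors. -/

set_option autoImplicit false

namespace Pool.Agent.H.MP_9e990c_al.Base

open N9e MvPolynomial

/-! ### `B` -/

theorem toF3_ker (b : B) (h : toF3 b = 0) : ∃ c, b = pB * c := by
  obtain ⟨f, rfl⟩ := AdjoinRoot.mk_surjective b
  have h1 : AdjoinRoot.mk (Polynomial.X ^ 12 + 3 : Polynomial ℤ) f =
      AdjoinRoot.mk _ (Polynomial.C (f.coeff 0)) +
        pB * AdjoinRoot.mk _ f.divX := by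
    conv_lhs => rw [← Polynomial.divX_mul_X_add f]
    rw [map_add, map_mul, AdjoinRoot.mk_X]
    rw [pB]
    ring
  rw [h1, map_add, map_mul, toF3_pB, zero_mul, add_zero, AdjoinRoot.mk_C] at h
  rw [toF3, AdjoinRoot.lift_of] at h
  have h2 : ((f.coeff 0 : ℤ) : ZMod 3) = 0 := h
  rw [ZMod.intCast_zmod_eq_zero_iff_dvd] at h2
  obtain ⟨k, hk⟩ := h2
  have h3 : AdjoinRoot.mk (Polynomial.X ^ 12 + 3 : Polynomial ℤ) (Polynomial.C (f.coeff 0)) =
      3 * (k : B) := by
    rw [AdjoinRoot.mk_C, hk]
    simp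
  refine ⟨-(pB ^ 11 * (k : B)) + AdjoinRoot.mk _ f.divX, ?_⟩
  rw [h1, h3]
  have h4 := pB_pow
  linear_combination (k : B) * h4

theorem three_B (b : B) (h : 3 * b = 0) : b = 0 := by
  have hm : (Polynomial.X ^ 12 + 3 : Polynomial ℤ).Monic := by monicity!
  have : Module.Free ℤ B := hm.free_adjoinRoot
  have h1 : (3 : ℤ) • b = 0 := by rw [zsmul_eq_mul]; exact_mod_cast h
  exact (smul_eq_zero.1 h1).resolve_left (by norm_num)

/-! ### `A0` -/

theorem three_A0 (a : A0) (h : 3 * a = 0) : a = 0 := by
  ext m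
  rw [coeff_zero]
  apply three_B
  have h1 : coeff m (3 * a) = 3 * coeff m a := by
    have : (3 : A0) = C 3 := (map_ofNat C 3).symm
    rw [this, coeff_C_mul]
  rw [← h1, h, coeff_zero]

theorem redA_ker (a : A0) (h : redA a = 0) : ∃ c, a = C pB * c := by
  have h1 : a ∈ RingHom.ker redA := h
  have h2 : RingHom.ker toF3 = Ideal.span {pB} := by
    ext b
    rw [RingHom.mem_ker, Ideal.mem_span_singleton]
    constructor
    · exact toF3_ker b
    · rintro ⟨c, rfl⟩
      rw [map_mul, toF3_pB, zero_mul]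
  rw [redA, ker_map, h2, Ideal.map_span, Set.image_singleton, Ideal.mem_span_singleton] at h1
  exact h1

theorem redA_pB : redA (C pB) = 0 := by
  rw [redA, map_C, toF3_pB, C_0]

theorem redA_X (i : Fin 7) : redA (X i) = X i := by
  rw [redA, map_X]

/-- The substitution `y_j -> y_j ^ 3`. -/
noncomputable def cub : PA →ₐ[ZMod 3] PA := aeval fun i => if i < 4 then X i else X i ^ 3

theorem cub_X (i : Fin 7) : cub (X i) = if i < 4 then X i else X i ^ 3 := by
  rw [cub, aeval_X]

theorem cub_injective : Function.Injective cub := by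
  have h := algebraicIndependent_polynomial_aeval_X (ι := Fin 7) (R := ZMod 3)
    (fun i => if i < 4 then Polynomial.X else Polynomial.X ^ 3) (fun i => by
      split_ifs
      · exact Polynomial.transcendental_X _
      · exact (Polynomial.transcendental_X _).pow (by norm_num))
  have h2 : (fun i : Fin 7 => (Polynomial.aeval (X i : PA))
      (if i < 4 then Polynomial.X else Polynomial.X ^ 3 : Polynomial (ZMod 3))) =
      fun i => if i < 4 then X i else X i ^ 3 := by
    funext i
    split_ifs
    · rw [Polynomial.aeval_X]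
    · rw [map_pow, Polynomial.aeval_X]
  rw [h2] at h
  exact h

/-- The residue map on `A0`. -/
noncomputable def redA' : A0 →+* MM :=
  (algebraMap PA MM).comp ((cub : PA →+* PA).comp redA)

theorem redA'_eq_zero (a : A0) : redA' a = 0 ↔ a ∈ P0 := by
  rw [redA', RingHom.comp_apply, RingHom.comp_apply]
  constructor
  · intro h
    have h1 : (cub : PA →+* PA) (redA a) = 0 := by
      apply IsFractionRing.injective PA MM
      rw [h, map_zero]
    have h2 : redA a = 0 := by
      apply cub_injective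
      rw [map_zero]
      exact h1
    exact h2
  · intro h
    have h2 : redA a = 0 := h
    rw [h2, map_zero, map_zero]

theorem redA'_unit (a : P0.primeCompl) : IsUnit (redA' a) := by
  rw [isUnit_iff_ne_zero, Ne, redA'_eq_zero]
  exact a.2

/-! ### `R` -/

/-- The residue map on `R`. -/
noncomputable def redR : R →+* MM := IsLocalization.lift (M := P0.primeCompl) redA'_unit

theorem redR_algebraMap (a : A0) : redR (algebraMap A0 R a) = redA' a :=
  IsLocalization.lift_eq redA'_unit a

theorem redR_pi : redR piR = 0 := by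
  rw [piR, redR_algebraMap, redA'_eq_zero]
  exact redA_pB

theorem redR_var (i : Fin 7) : redR (varR i) = if i < 4 then xx i else xx i ^ 3 := by
  rw [varR, redR_algebraMap, redA', RingHom.comp_apply, RingHom.comp_apply, redA_X]
  have : (cub : PA →+* PA) (X i) = cub (X i) := rfl
  rw [this, cub_X]
  split_ifs
  · rfl
  · rw [map_pow]; rfl

theorem piR_pow : piR ^ 12 = -3 := by
  rw [piR, ← map_pow, ← C_pow, pB_pow, C_neg, map_neg]
  have : (C (3 : B) : A0) = 3 := map_ofNat C 3
  rw [this, map_ofNat]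

theorem redR_ker (r : R) (h : redR r = 0) : ∃ c, r = piR * c := by
  obtain ⟨a, s, rfl⟩ := IsLocalization.exists_mk'_eq P0.primeCompl r
  have h1 : redA' a = 0 := by
    rw [← redR_algebraMap, ← IsLocalization.mk'_spec R a s, map_mul, h, zero_mul]
  rw [redA'_eq_zero] at h1
  obtain ⟨c, hc⟩ := redA_ker a h1
  refine ⟨IsLocalization.mk' R c s, ?_⟩
  rw [piR, IsLocalization.mul_mk'_eq_mk'_of_mul, hc]

theorem unitR (r : R) (h : redR r ≠ 0) : IsUnit r := by
  obtain ⟨a, s, rfl⟩ := IsLocalization.exists_mk'_eq P0.primeCompl r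
  have h1 : redA' a ≠ 0 := by
    rw [← redR_algebraMap, ← IsLocalization.mk'_spec R a s, map_mul]
    refine mul_ne_zero h ?_
    rw [redR_algebraMap]
    exact (redA'_unit s).ne_zero
  rw [Ne, redA'_eq_zero] at h1
  have h2 : IsUnit (algebraMap A0 R a) := IsLocalization.map_units R (⟨a, h1⟩ : P0.primeCompl)
  rw [← IsLocalization.mk'_spec R a s] at h2
  exact isUnit_of_mul_isUnit_left h2

theorem three_R (r : R) (h : 3 * r = 0) : r = 0 := by
  obtain ⟨a, s, rfl⟩ := IsLocalization.exists_mk'_eq P0.primeCompl r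
  have h1 : algebraMap A0 R (3 * a) = 0 := by
    rw [map_mul, ← IsLocalization.mk'_spec R a s, ← mul_assoc]
    have : algebraMap A0 R 3 = 3 := map_ofNat _ _
    rw [this, h, zero_mul]
  rw [IsLocalization.map_eq_zero_iff P0.primeCompl] at h1
  obtain ⟨u, hu⟩ := h1
  have h2 : (u : A0) * a = 0 := by
    apply three_A0
    rw [← hu]; ring
  rw [IsLocalization.mk'_eq_zero_iff]
  exact ⟨u, h2⟩

theorem nzdR (r : R) (h : piR * r = 0) : r = 0 := by
  apply three_R
  have : (3 : R) = -(piR ^ 11 * piR) := by rw [← pow_succ, piR_pow, neg_neg]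
  rw [this]
  calc -(piR ^ 11 * piR) * r = -(piR ^ 11) * (piR * r) := by ring
    _ = 0 := by rw [h, mul_zero]

instance : IsLocalRing R := IsLocalization.AtPrime.isLocalRing R P0

end Pool.Agent.H.MP_9e990c_al.Base
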