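import Pool.Agent.H.MP_9e990c_al.h20.Gen
import Pool.Agent.H.MP_9e990c_al.h20.RingR

/-! The ring `O`: residue map, units, separatedness, domain, the root. -/

set_option autoImplicit false

namespace Pool.Agent.H.MP_9e990c_al.Base

open N9e

theorem piO_pow : piO ^ 12 = -3 := by
  rw [piO, ← map_pow, piR_pow, map_neg, map_ofNat]

instance instCompleteO : IsAdicComplete (Ideal.span {piO}) O := Gen.complete piR

/-- The residue map on `O`. -/
noncomputable def redO : O →+* MM :=
  (Ideal.Quotient.lift (Ideal.span {piR}) redR (fun a ha => by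
    obtain ⟨c, rfl⟩ := Ideal.mem_span_singleton.1 ha
    rw [map_mul, redR_pi, zero_mul])).comp
  (AdicCompletion.evalOneₐ (Ideal.span {piR}) : O →+* R ⧸ Ideal.span {piR})

theorem redO_algebraMap (r : R) : redO (algebraMap R O r) = redR r := by
  rw [redO, RingHom.comp_apply]
  have h : (AdicCompletion.evalOneₐ (Ideal.span {piR}) : O →+* R ⧸ Ideal.span {piR})
      (algebraMap R O r) = Ideal.Quotient.mk (Ideal.span {piR}) r :=
    (AdicCompletion.evalOneₐ (Ideal.span {piR})).commutes r
  rw [h, Ideal.Quotient.lift_mk]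

theorem redO_pi : redO piO = 0 := by rw [piO, redO_algebraMap, redR_pi]

theorem redO_var (i : Fin 7) : redO (varO i) = if i < 4 then xx i else xx i ^ 3 := by
  rw [varO, redO_algebraMap, redR_var]

/-- Every element of `O` is an element of `R` plus a multiple of `π`. -/
theorem exists_R (a : O) : ∃ r b, a = algebraMap R O r + piO * b := by
  obtain ⟨r, hr⟩ := Ideal.Quotient.mk_surjective (AdicCompletion.evalOneₐ (Ideal.span {piR}) a)
  have h : AdicCompletion.evalOneₐ (Ideal.span {piR}) (a - algebraMap R O r) = 0 := by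
    rw [map_sub, AlgHom.commutes, ← hr]
    exact sub_self _
  obtain ⟨b, hb⟩ := Gen.eval_eq_zero piR h
  exact ⟨r, b, by rw [piO, ← hb]; ring⟩

theorem redO_ker (a : O) (h : redO a = 0) : ∃ b, a = piO * b := by
  obtain ⟨r, b, rfl⟩ := exists_R a
  rw [map_add, map_mul, redO_pi, zero_mul, add_zero, redO_algebraMap] at h
  obtain ⟨c, rfl⟩ := redR_ker r h
  exact ⟨algebraMap R O c + b, by rw [map_mul, piO]; ring⟩

theorem nzdO (a : O) (h : piO * a = 0) : a = 0 := Gen.nzd piR nzdR a h

theorem nzdO_pow (n : ℕ) (a : O) (h : piO ^ n * a = 0) : a = 0 := by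
  induction n with
  | zero => rwa [pow_zero, one_mul] at h
  | succ n ih =>
    have h1 : piO * (piO ^ n * a) = 0 := by
      rw [← h]; ring
    exact ih (nzdO _ h1)

theorem sepO (a : O) (h : ∀ n : ℕ, ∃ b, a = piO ^ n * b) : a = 0 := Gen.sep piR a h

/-- Every nonzero element is a power of `π` times an element with nonzero residue. -/
theorem exists_pow (a : O) (h : a ≠ 0) : ∃ n b, a = piO ^ n * b ∧ redO b ≠ 0 := by
  by_contra hc
  push Not at hc
  apply h
  apply sepO
  intro n
  induction n with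
  | zero => exact ⟨a, by rw [pow_zero, one_mul]⟩
  | succ n ih =>
    obtain ⟨b, hb⟩ := ih
    obtain ⟨c, hcc⟩ := redO_ker b (hc n b hb)
    exact ⟨c, by rw [hb, hcc]; ring⟩

instance : Nontrivial O := ⟨⟨0, 1, fun h => by
  have := congrArg redO h
  rw [map_zero, map_one] at this
  exact zero_ne_one this⟩⟩

instance : NoZeroDivisors O where
  eq_zero_or_eq_zero_of_mul_eq_zero := by
    intro a b hab
    by_contra hc
    push Not at hc
    obtain ⟨n, a', ha, ha'⟩ := exists_pow a hc.1
    obtain ⟨m, b', hb, hb'⟩ := exists_pow b hc.2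
    have h1 : piO ^ (n + m) * (a' * b') = 0 := by
      rw [← hab, ha, hb, pow_add]; ring
    have h2 := nzdO_pow _ _ h1
    have h3 : redO (a' * b') = 0 := by rw [h2, map_zero]
    rw [map_mul] at h3
    exact (mul_ne_zero ha' hb') h3

instance instDomainO : IsDomain O := NoZeroDivisors.to_isDomain O

theorem unit_one_add (a : O) (h : redO a = 1) : IsUnit a := by
  have h1 : redO (a - 1) = 0 := by rw [map_sub, h, map_one, sub_self]
  obtain ⟨b, hb⟩ := redO_ker _ h1
  have h2 : (piO : O) ∈ (⊥ : Ideal O).jacobson :=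
    IsAdicComplete.le_jacobson_bot (Ideal.span {piO}) (Ideal.mem_span_singleton_self _)
  rw [Ideal.mem_jacobson_bot] at h2
  have h3 := h2 b
  rwa [← hb, sub_add_cancel] at h3

theorem unitO (a : O) (h : redO a ≠ 0) : IsUnit a := by
  obtain ⟨r, b, hr⟩ := exists_R a
  have h1 : redO a = redR r := by
    rw [hr, map_add, map_mul, redO_pi, zero_mul, add_zero, redO_algebraMap]
  obtain ⟨u, hu⟩ := unitR r (by rwa [← h1])
  have h2 : redO (a * algebraMap R O ↑u⁻¹) = 1 := by
    rw [map_mul, h1, ← hu, redO_algebraMap, ← map_mul, Units.mul_inv, map_one]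
  exact isUnit_of_mul_isUnit_left (unit_one_add _ h2)

theorem isUnit_iff (a : O) : IsUnit a ↔ redO a ≠ 0 :=
  ⟨fun h => (h.map redO).ne_zero, unitO a⟩

/-- The root used in section 1. -/
theorem root (A B : O) (hA : ∃ c, A = piO * c) (hB : ∃ c, B = piO * c) :
    ∃ y : O, y - A * y ^ 2 - B * y ^ 3 = 1 ∧ redO y = 1 := by
  have hA0 : redO A = 0 := by obtain ⟨c, rfl⟩ := hA; rw [map_mul, redO_pi, zero_mul]
  have hB0 : redO B = 0 := by obtain ⟨c, rfl⟩ := hB; rw [map_mul, redO_pi, zero_mul]
  have hmem : ∀ a : O, redO a = 0 → a ∈ Ideal.span {piO} := fun a ha => by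
    obtain ⟨b, hb⟩ := redO_ker a ha
    exact Ideal.mem_span_singleton.2 ⟨b, hb⟩
  let f : Polynomial O := Polynomial.X ^ 3 - Polynomial.X ^ 2 + Polynomial.C A * Polynomial.X +
    Polynomial.C B
  have hf : f.Monic := by
    have : f = Polynomial.X ^ 3 + (- Polynomial.X ^ 2 + Polynomial.C A * Polynomial.X +
      Polynomial.C B) := by simp only [f]; ring
    rw [this]
    refine Polynomial.monic_X_pow_add ?_
    compute_degree!
  have h1 : f.eval 1 ∈ Ideal.span {piO} := by
    apply hmem
    simp [f, hA0, hB0]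
  have h2 : f.derivative.eval 1 = 1 + A := by
    simp [f]
    ring
  have h3 : IsUnit (Ideal.Quotient.mk (Ideal.span {piO}) (f.derivative.eval 1)) := by
    rw [h2, map_add, map_one, Ideal.Quotient.eq_zero_iff_mem.2 (hmem A hA0), add_zero]
    exact isUnit_one
  obtain ⟨z, hz, hz1⟩ := HenselianRing.is_henselian (I := Ideal.span {piO}) f hf 1 h1 h3
  obtain ⟨c, hc⟩ := Ideal.mem_span_singleton.1 hz1
  have hz2 : redO z = 1 := by
    have : z = 1 + piO * c := by rw [← hc]; ring
    rw [this, map_add, map_mul, redO_pi, zero_mul, add_zero, map_one]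
  obtain ⟨u, hu⟩ := unit_one_add z hz2
  have hz3 : z ^ 3 - z ^ 2 + A * z + B = 0 := by
    have := hz
    simpa [f, Polynomial.IsRoot] using this
  have huz : z * (↑u⁻¹ : O) = 1 := by rw [← hu, Units.mul_inv]
  refine ⟨↑u⁻¹, ?_, ?_⟩
  · generalize (↑u⁻¹ : O) = y at huz
    have h4 : y = y ^ 3 * z ^ 2 := by
      calc y = (z * y) ^ 2 * y := by rw [huz]; ring
        _ = y ^ 3 * z ^ 2 := by ring
    have h5 : y ^ 2 = y ^ 3 * z := by
      calc y ^ 2 = (z * y) * y ^ 2 := by rw [huz]; ring
        _ = y ^ 3 * z := by ring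
    have h6 : (1 : O) = y ^ 3 * z ^ 3 := by
      calc (1 : O) = (z * y) ^ 3 := by rw [huz]; ring
        _ = y ^ 3 * z ^ 3 := by ring
    linear_combination h4 - A * h5 - h6 - y ^ 3 * hz3
  · have h7 := congrArg redO huz
    rwa [map_mul, hz2, one_mul, map_one] at h7

theorem root_unique (A B y z : O) (hA : ∃ c, A = piO * c) (hB : ∃ c, B = piO * c)
    (hy : y - A * y ^ 2 - B * y ^ 3 = 1) (hz : z - A * z ^ 2 - B * z ^ 3 = 1) : y = z := by
  have hA0 : redO A = 0 := by obtain ⟨c, rfl⟩ := hA; rw [map_mul, redO_pi, zero_mul]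
  have hB0 : redO B = 0 := by obtain ⟨c, rfl⟩ := hB; rw [map_mul, redO_pi, zero_mul]
  have h1 : (y - z) * (1 - A * (y + z) - B * (y ^ 2 + y * z + z ^ 2)) = 0 := by
    linear_combination hy - hz
  rcases mul_eq_zero.1 h1 with h | h
  · exact sub_eq_zero.1 h
  · exfalso
    have := congrArg redO h
    rw [map_sub, map_sub, map_mul, map_mul, hA0, hB0, map_one, map_zero, zero_mul, zero_mul,
      sub_zero, sub_zero] at this
    exact one_ne_zero this

theorem exists_unique_root (A B : O) (hA : ∃ c, A = piO * c) (hB : ∃ c, B = piO * c) :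
    ∃! y : O, y - A * y ^ 2 - B * y ^ 3 = 1 := by
  obtain ⟨y, hy, -⟩ := root A B hA hB
  exact ⟨y, hy, fun z hz => root_unique A B z y hA hB hz hy⟩

/-- Two ring homomorphisms on `R` are equal if they agree on `π` and on the variables. -/
theorem hom_extR {S : Type*} [CommRing S] (f g : R →+* S) (hpi : f piR = g piR)
    (hv : ∀ i, f (varR i) = g (varR i)) : f = g := by
  refine IsLocalization.ringHom_ext P0.primeCompl ?_
  refine MvPolynomial.ringHom_ext' ?_ ?_
  · refine Ideal.Quotient.ringHom_ext ?_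
    refine Polynomial.ringHom_ext' (Subsingleton.elim _ _) ?_
    exact hpi
  · exact hv

/-- Two ring homomorphisms from `O` to a ring which is separated for the topology of the powers of
`p` are equal if they send `π` to `p` and agree on the variables. -/
theorem hom_ext_sep {S : Type*} [CommRing S] (p : S) (hs : ∀ a : S, (∀ n : ℕ, ∃ b, a = p ^ n * b) → a = 0)
    (f g : O →+* S) (hf : f piO = p) (hg : g piO = p) (hv : ∀ i, f (varO i) = g (varO i)) :
    f = g := by
  have h1 : f.comp (algebraMap R O) = g.comp (algebraMap R O) := by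
    refine hom_extR _ _ ?_ hv
    change f piO = g piO
    rw [hf, hg]
  have h2 : ∀ (n : ℕ) (a : O), ∃ b, f a - g a = p ^ n * b := by
    intro n
    induction n with
    | zero => exact fun a => ⟨f a - g a, by rw [pow_zero, one_mul]⟩
    | succ n ih =>
      intro a
      obtain ⟨r, b, rfl⟩ := exists_R a
      obtain ⟨c, hc⟩ := ih b
      refine ⟨c, ?_⟩
      have h3 : f (algebraMap R O r) = g (algebraMap R O r) := RingHom.congr_fun h1 r
      rw [map_add, map_add, map_mul, map_mul, hf, hg, h3]
      linear_combination p * hc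
  ext a
  exact sub_eq_zero.1 (hs _ fun n => h2 n a)

/-- Two endomorphisms of `O` which fix `π` and agree on the variables are equal. -/
theorem hom_ext (f g : O →+* O) (hf : f piO = piO) (hg : g piO = piO)
    (hv : ∀ i, f (varO i) = g (varO i)) : f = g :=
  hom_ext_sep piO sepO f g hf hg hv

/-- Two ring homomorphisms from `O` to a field which kill `π` and agree on the variables are
equal. -/
theorem hom_ext_field {L : Type*} [Field L] (f g : O →+* L) (hf : f piO = 0) (hg : g piO = 0)
    (hv : ∀ i, f (varO i) = g (varO i)) : f = g :=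
  hom_ext_sep 0 (fun a h => by obtain ⟨b, hb⟩ := h 1; rw [hb, pow_one, zero_mul]) f g hf hg hv

end Pool.Agent.H.MP_9e990c_al.Base
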